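import Pool.Agent.H68.AC.Targets

/-!
# SETH for constant-depth circuits: module ENA
-/

namespace Pool.Agent.H79.AC

open Pool.Agent.H68.AC Finset

/-- Module ENA: the function is a projection of satisfiability of CNFs with short clauses. -/
theorem ena : T_ENA := by
  classical
  intro k r ℓ n m e hℓ hk hn hm
  have hcard1 : Fintype.card (Fin k × Fin ℓ) ≤ Fintype.card (Fin n) := by simpa using hn
  obtain ⟨vr⟩ := Function.Embedding.nonempty_of_card_le hcard1
  have hcard2 : Fintype.card (VV k r (Fin ℓ → Bool)) ≤ Fintype.card (Fin m) := by
    simpa [VV, Fintype.card_option] using hm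
  obtain ⟨ci⟩ := Function.Embedding.nonempty_of_card_le hcard2
  let z0 : Fin ℓ := ⟨0, hℓ⟩
  let k0 : Fin k := ⟨0, hk⟩
  let inc : Fin m × Fin n × Bool → Inp (VV k r (Fin ℓ → Bool)) := fun t =>
    if h : ∃ c, ci c = t.1 then
      (if ∃ o u, t.2.1 = vr (sc e h.choose.1 o, u) ∧ t.2.2 = !(h.choose.2 o u) then .const true
        else if t.2.1 = vr (sc e h.choose.1 none, z0) then .var h.choose else .const false)
    else .const (decide (t.2.1 = vr (k0, z0)))
  have hinc1 : ∀ c i b, inc (ci c, i, b) =
      (if ∃ o u, i = vr (sc e c.1 o, u) ∧ b = !(c.2 o u) then .const true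
        else if i = vr (sc e c.1 none, z0) then .var c else .const false) := by
    intro c i b
    have h : ∃ c', ci c' = ci c := ⟨c, rfl⟩
    have hc : h.choose = c := ci.injective h.choose_spec
    simp only [inc]
    rw [dif_pos h, hc]
  have hinc2 : ∀ J i b, (¬ ∃ c, ci c = J) → inc (J, i, b) = .const (decide (i = vr (k0, z0))) := by
    intro J i b h
    simp only [inc]
    rw [dif_neg h]
  refine ⟨inc, fun y => ⟨?_, ?_⟩⟩
  · constructor
    · rintro ⟨a', ha'⟩
      refine ⟨fun v u => a' (vr (v, u)), fun j => ?_⟩
      obtain ⟨i, hi⟩ := ha' (ci (pos e (fun v u => a' (vr (v, u))) j))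
      simp only [hinc1] at hi
      split_ifs at hi with h1 h2
      · obtain ⟨o, u, hi1, hi2⟩ := h1
        exfalso
        rw [hi1] at hi2
        simp [pos] at hi2
      · simpa [Inp.val] using hi
      · simp [Inp.val] at hi
    · rintro ⟨x, hx⟩
      let a' : Fin n → Bool := fun i => if h : ∃ c, vr c = i then x h.choose.1 h.choose.2 else false
      have ha' : ∀ v u, a' (vr (v, u)) = x v u := by
        intro v u
        have h : ∃ c, vr c = vr (v, u) := ⟨_, rfl⟩
        have hc : h.choose = (v, u) := vr.injective h.choose_spec
        simp only [a']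
        rw [dif_pos h, hc]
      refine ⟨a', fun J => ?_⟩
      by_cases hJ : ∃ c, ci c = J
      · obtain ⟨⟨j, a⟩, rfl⟩ := hJ
        by_cases hxa : ∃ o u, x (sc e j o) u = !(a o u)
        · obtain ⟨o, u, hou⟩ := hxa
          refine ⟨vr (sc e j o, u), ?_⟩
          change Inp.val y (inc (ci (j, a), vr (sc e j o, u), a' (vr (sc e j o, u)))) = true
          rw [hinc1, if_pos ⟨o, u, rfl, by rw [ha', hou]⟩]
          rfl
        · push Not at hxa
          have hpa : pos e x j = (j, a) := by
            simp only [pos, Prod.mk.injEq, true_and]
            funext o u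
            have := hxa o u
            cases h1 : x (sc e j o) u <;> cases h2 : a o u <;> simp_all
          refine ⟨vr (sc e j none, z0), ?_⟩
          change Inp.val y (inc (ci (j, a), vr (sc e j none, z0), a' (vr (sc e j none, z0)))) = true
          rw [hinc1]
          split_ifs with h1 h2
          · rfl
          · simp only [Inp.val]
            rw [← hpa]
            exact hx j
          · exact absurd rfl h2
      · refine ⟨vr (k0, z0), ?_⟩
        change Inp.val y (inc (J, vr (k0, z0), a' (vr (k0, z0)))) = true
        rw [hinc2 _ _ _ hJ]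
        simp [Inp.val]
  · intro J
    unfold width
    by_cases hJ : ∃ c, ci c = J
    · obtain ⟨⟨j, a⟩, rfl⟩ := hJ
      have hsub : (univ.filter (fun l : Fin n × Bool => (fun i => (inc i).val y) (ci (j, a), l) = true)) ⊆
          insert (vr (sc e j none, z0), a none z0)
            ((univ : Finset (Option (Fin r) × Fin ℓ)).image
              (fun t => (vr (sc e j t.1, t.2), !(a t.1 t.2)))) := by
        rintro ⟨i, b⟩ hl
        rw [mem_filter] at hl
        have hl2 := hl.2
        simp only [hinc1] at hl2
        rw [mem_insert, mem_image]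
        split_ifs at hl2 with h1 h2
        · obtain ⟨o, u, hi, hb⟩ := h1
          exact Or.inr ⟨(o, u), mem_univ _, by rw [hi, hb]⟩
        · by_cases hb : b = a none z0
          · left
            rw [h2, hb]
          · right
            refine ⟨(none, z0), mem_univ _, ?_⟩
            rw [h2]
            have : b = !(a none z0) := by
              cases b <;> cases h : a none z0 <;> simp_all
            rw [this]
        · simp [Inp.val] at hl2
      refine (card_le_card hsub).trans ((card_insert_le _ _).trans ?_)
      refine Nat.add_le_add_right (card_image_le.trans ?_) 1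
      simp [Fintype.card_option]
    · have hsub : (univ.filter (fun l : Fin n × Bool => (fun i => (inc i).val y) (J, l) = true)) ⊆
          {(vr (k0, z0), true), (vr (k0, z0), false)} := by
        rintro ⟨i, b⟩ hl
        rw [mem_filter] at hl
        have hl2 := hl.2
        simp only [hinc2 _ _ _ hJ, Inp.val, decide_eq_true_eq] at hl2
        rw [hl2]
        cases b <;> simp
      refine (card_le_card hsub).trans (card_le_two.trans ?_)
      have : 1 ≤ (r + 1) * ℓ := Nat.mul_pos (Nat.succ_pos r) hℓ
      omega

end Pool.Agent.H79.AC
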