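import Pool.Agent.H68.AC.Targets

/-!
# SETH for constant-depth circuits: module DET
-/

namespace Pool.Agent.H79.AC

open Pool.Agent.H68.AC Finset

/-- Every input follows a path of the tree. -/
theorem exists_path {V : Type} (t : DT V) (y : V → Bool) :
    ∃ ψ, IsPath t ψ (t.eval y) ∧ ∀ u ∈ ψ, y u.1 = u.2 := by
  induction t with
  | leaf b => exact ⟨[], IsPath.leaf b, by simp⟩
  | node v l r ihl ihr =>
    cases h : y v with
    | false =>
      obtain ⟨ψ, h1, h2⟩ := ihl
      refine ⟨(v, false) :: ψ, ?_, ?_⟩
      · simp only [DT.eval, h, cond_false]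
        exact IsPath.left v l r ψ _ h1
      · intro u hu
        rcases List.mem_cons.1 hu with rfl | hu
        · exact h
        · exact h2 u hu
    | true =>
      obtain ⟨ψ, h1, h2⟩ := ihr
      refine ⟨(v, true) :: ψ, ?_, ?_⟩
      · simp only [DT.eval, h, cond_true]
        exact IsPath.right v l r ψ _ h1
      · intro u hu
        rcases List.mem_cons.1 hu with rfl | hu
        · exact h
        · exact h2 u hu

/-- An input consistent with a path evaluates to the label of its leaf. -/
theorem eval_of_path {V : Type} {t : DT V} {ψ : List (V × Bool)} {c : Bool} (h : IsPath t ψ c)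
    (y : V → Bool) (hy : ∀ u ∈ ψ, y u.1 = u.2) : t.eval y = c := by
  induction h with
  | leaf b => rfl
  | left v l r ψ c _ ih =>
    have h1 : y v = false := hy (v, false) (by simp)
    simp only [DT.eval, h1, cond_false]
    exact ih (fun u hu => hy u (List.mem_cons_of_mem _ hu))
  | right v l r ψ c _ ih =>
    have h1 : y v = true := hy (v, true) (by simp)
    simp only [DT.eval, h1, cond_true]
    exact ih (fun u hu => hy u (List.mem_cons_of_mem _ hu))

/-- Module DET: a good outcome fools the circuit. -/
theorem det (hFL : T_FL) (hCOR : T_COR) : T_DET := by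
  intro k r s d A _ _ C e x R z β h hE hh hβ hU hB b hb
  classical
  set P : Finset (VV k r A) := K e x univ with hP
  have hKm : ∀ j, pos e x j ∈ P := fun j => mem_image_of_mem _ (mem_univ j)
  set y : VV k r A → Bool := yof P R z with hy
  have hlev : C.lev C.out + 1 ≤ d := C.lev_lt C.out
  have hext : Ext (rho P R (C.lev C.out + 1)) y := ext_yof P R z hlev
  obtain ⟨ψ, hψ, hψy⟩ := exists_path (C.T P R C.out) y
  have hcard := hFL k r s d A C e x R β h hE hh hB C.out ψ _ hψ
  -- a vertex which is not covered
  obtain ⟨j, hj⟩ : ∃ j : Fin k, j ∉ VS e (univ.filter (fun j => pos e x j ∈ ψ.map Prod.fst)) := by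
    by_contra hcon
    push Not at hcon
    have h1 : (univ : Finset (Fin k)) ⊆ VS e (univ.filter (fun j => pos e x j ∈ ψ.map Prod.fst)) :=
      fun j _ => hcon j
    have h2 := card_le_card h1
    rw [card_univ, Fintype.card_fin] at h2
    omega
  have hjψ : pos e x j ∉ ψ.map Prod.fst := by
    intro hmem
    apply hj
    rw [VS, mem_biUnion]
    refine ⟨j, mem_filter.2 ⟨mem_univ _, hmem⟩, ?_⟩
    rw [mem_image]
    exact ⟨none, mem_univ _, rfl⟩
  set y' : VV k r A → Bool := Function.update y (pos e x j) false with hy'
  have hext' : Ext (rho P R (C.lev C.out + 1)) y' := by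
    intro v b hv
    have hvP : v ∉ P := by
      intro hvP
      simp [rho, mask, hvP] at hv
    have hne : v ≠ pos e x j := by
      rintro rfl
      exact hvP (hKm j)
    rw [hy', Function.update_of_ne hne]
    exact hext v b hv
  have hev : (C.T P R C.out).eval y' = (C.T P R C.out).eval y := by
    apply eval_of_path hψ
    intro u hu
    have hne : u.1 ≠ pos e x j := by
      intro he
      exact hjψ (he ▸ List.mem_map_of_mem hu)
    rw [hy', Function.update_of_ne hne]
    exact hψy u hu
  have hval : C.val y' C.out = C.val y C.out := by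
    rw [← hCOR _ s d C P R C.out y' hext', ← hCOR _ s d C P R C.out y hext, hev]
  have hf : fE e y := by
    refine ⟨x, fun i => ?_⟩
    simp only [hy, yof, if_pos (hKm i)]
  have hf' : ¬ fE e y' := by
    rintro ⟨x', hx'⟩
    have hne : x' ≠ x := by
      rintro rfl
      have := hx' j
      rw [hy', Function.update_self] at this
      exact Bool.false_ne_true this
    obtain ⟨i, hi1, hi2⟩ := hU x' hne
    have hiP : pos e x' i ∉ P := by
      intro hmem
      rw [hP, K, mem_image] at hmem
      obtain ⟨i', _, hi'⟩ := hmem
      have h1 : i' = i := congrArg Prod.fst hi'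
      rw [h1] at hi'
      exact hi1 hi'.symm
    have hyi : y (pos e x' i) = false := by
      simp only [hy, yof, if_neg hiP]
      exact hi2
    have hne2 : pos e x' i ≠ pos e x j := fun he => hiP (he ▸ hKm j)
    have := hx' i
    rw [hy', Function.update_of_ne hne2, hyi] at this
    exact Bool.false_ne_true this
  have h1 : C.val y C.out = b := (hb y).2 hf
  exact hf' ((hb y').1 (hval.trans h1))

end Pool.Agent.H79.AC
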